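import Pool.Agent.H47.MB.RowS1

set_option linter.style.longLine false

/-! MB2, row S2: the limit of nested centres. -/

namespace Pool.Agent.H48.MB

open Finset Filter Topology
open Pool.Agent.H51.IR Pool.Agent.H98.MB Pool.Agent.H47.MB

theorem continuous_crit (j : ℕ) : Continuous fun c => crit c j :=
  continuous_iff_continuousAt.2 fun c => (hasDerivAt_crit c j).continuousAt

theorem crit_mul_eq_zero {c : ℂ} {n : ℕ} (h : crit c n = 0) (m : ℕ) : crit c (m * n) = 0 := by
  induction m with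
  | zero => rw [zero_mul]; exact crit_zero c
  | succ m ih => rw [add_one_mul, crit_add, ih]; exact h

variable {c : ℕ → ℂ} {n : ℕ → ℕ}

theorem scale_pos (hC : ∀ k, Centre (c k) (n k)) (k : ℕ) :
    0 < ‖A (c k) (n k)‖ * ‖Dp (c k) (n k)‖ :=
  mul_pos (norm_pos_iff.2 ((hC k).A_ne le_rfl)) (norm_pos_iff.2 (hC k).dp)

theorem dist_centres (hC : ∀ k, Centre (c k) (n k))
    (hS : ∀ k, Step (c k) (n k) (c (k + 1)) (n (k + 1))) (j : ℕ) :
    ∀ k, ‖A (c k) (n k)‖ * ‖Dp (c k) (n k)‖ * ‖c (k + j) - c k‖ ≤ 2.45 := by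
  induction j with
  | zero => intro k; rw [add_zero, sub_self, norm_zero, mul_zero]; norm_num
  | succ j ih =>
    intro k
    have h1 := ih (k + 1)
    have h2 := (hS k).dist
    have h3 := (hS k).scale
    have h0 := scale_pos hC k
    have e : k + (j + 1) = k + 1 + j := by omega
    rw [e]
    have h4 : ‖c (k + 1 + j) - c k‖ ≤ ‖c (k + 1 + j) - c (k + 1)‖ + ‖c (k + 1) - c k‖ := by
      have := norm_add_le (c (k + 1 + j) - c (k + 1)) (c (k + 1) - c k)
      rwa [sub_add_sub_cancel] at this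
    have h5 := mul_le_mul_of_nonneg_right h3 (norm_nonneg (c (k + 1 + j) - c (k + 1)))
    have h6 := mul_le_mul_of_nonneg_left h4 h0.le
    nlinarith

theorem ret_centres (hP : StatP) (hC : ∀ k, Centre (c k) (n k))
    (hS : ∀ k, Step (c k) (n k) (c (k + 1)) (n (k + 1))) (j : ℕ) :
    ∀ k m, ‖A (c k) (n k)‖ * ‖crit (c (k + j)) (m * n k)‖ ≤ 2.5 := by
  induction j with
  | zero =>
    intro k m
    rw [add_zero, crit_mul_eq_zero (hC k).zero, norm_zero, mul_zero]
    norm_num
  | succ j ih =>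
    intro k m
    have e : k + (j + 1) = k + 1 + j := by omega
    rw [e]
    obtain ⟨q, hq, hn⟩ := (hS k).mul
    have hq0 : 0 < q := by omega
    have hdm : m = (m / q) * q + m % q := by
      rw [mul_comm]; exact (Nat.div_add_mod m q).symm
    have hlt := Nat.mod_lt m hq0
    set b := m / q
    set i := m % q
    have hx := ih (k + 1) b
    have hmn : m * n k = b * n (k + 1) + i * n k := by rw [hn, hdm]; ring
    rw [hmn, crit_add]
    set x := crit (c (k + 1 + j)) (b * n (k + 1)) with hxdef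
    rcases Nat.eq_zero_or_pos i with hi | hi
    · rw [hi, zero_mul]
      exact (mul_le_mul_of_nonneg_right (hS k).mono (norm_nonneg _)).trans hx
    · have hN := hP (c (k + 1)) (n (k + 1)) (hC (k + 1)) (c (k + 1 + j)) x
        ((dist_centres hC hS j (k + 1)).trans (by norm_num)) (hx.trans (by norm_num))
      have hn1 := (hC k).one_le
      have hmem : i * n k ∈ Ico 1 (n (k + 1)) := by
        rw [mem_Ico, hn]
        exact ⟨Nat.mul_pos hi hn1, Nat.mul_lt_mul_of_pos_right hlt hn1⟩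
      have h1 := norm_le_of_sub (hN.orbit _ hmem)
      have h2 := (hS k).ret i
      have h3 := mul_le_mul_of_nonneg_left h1 (norm_nonneg (A (c k) (n k)))
      nlinarith

theorem scale_ge (hS : ∀ k, Step (c k) (n k) (c (k + 1)) (n (k + 1))) (h0 : c 0 = 0) (hn0 : n 0 = 1) (k : ℕ) :
    (10 : ℝ) ^ k ≤ ‖A (c k) (n k)‖ * ‖Dp (c k) (n k)‖ := by
  induction k with
  | zero => rw [h0, hn0, A_one]; simp [Dp, crit_zero]
  | succ k ih =>
    rw [pow_succ]
    have := (hS k).scale
    linarith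

/-- row S2 -/
theorem rowS2 (hP : StatP) (hC : ∀ k, Centre (c k) (n k))
    (hS : ∀ k, Step (c k) (n k) (c (k + 1)) (n (k + 1))) (h0 : c 0 = 0) (hn0 : n 0 = 1) :
    ∃ c' : ℂ, Tendsto c atTop (𝓝 c') ∧
      (∀ k, ‖A (c k) (n k)‖ * ‖Dp (c k) (n k)‖ * ‖c' - c k‖ ≤ 2.5) ∧
      ∀ k m, ‖A (c k) (n k)‖ * ‖crit c' (m * n k)‖ ≤ 2.5 := by
  have hcauchy : CauchySeq c := by
    refine cauchySeq_of_le_geometric (1 / 10) 2.2 (by norm_num) fun k => ?_
    have h1 := (hS k).dist
    have h2 := scale_ge hS h0 hn0 k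
    have h3 : (0 : ℝ) < 10 ^ k := by positivity
    rw [dist_comm, dist_eq_norm, one_div, inv_pow, ← div_eq_mul_inv, le_div_iff₀ h3]
    have h4 := mul_le_mul_of_nonneg_right h2 (norm_nonneg (c (k + 1) - c k))
    linarith
  obtain ⟨c', hc'⟩ := cauchySeq_tendsto_of_complete hcauchy
  refine ⟨c', hc', fun k => ?_, fun k m => ?_⟩
  · have ht : Tendsto (fun j => ‖A (c k) (n k)‖ * ‖Dp (c k) (n k)‖ * ‖c (k + j) - c k‖) atTop
        (𝓝 (‖A (c k) (n k)‖ * ‖Dp (c k) (n k)‖ * ‖c' - c k‖)) := by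
      refine Tendsto.const_mul _ (Tendsto.norm (Tendsto.sub_const ?_ _))
      have := (tendsto_add_atTop_iff_nat (f := c) k).2 hc'
      simpa only [add_comm] using this
    refine (le_of_tendsto ht (Eventually.of_forall fun j => dist_centres hC hS j k)).trans ?_
    norm_num
  · have ht : Tendsto (fun j => ‖A (c k) (n k)‖ * ‖crit (c (k + j)) (m * n k)‖) atTop
        (𝓝 (‖A (c k) (n k)‖ * ‖crit c' (m * n k)‖)) := by
      refine Tendsto.const_mul _ (Tendsto.norm ?_)
      have h1 := (tendsto_add_atTop_iff_nat (f := c) k).2 hc'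
      have h2 : Tendsto (fun j => c (k + j)) atTop (𝓝 c') := by
        simpa only [add_comm] using h1
      exact ((continuous_crit (m * n k)).tendsto c').comp h2
    exact le_of_tendsto ht (Eventually.of_forall fun j => ret_centres hP hC hS j k m)

end Pool.Agent.H48.MB
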