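import Pool.Agent.H98.MB.Pert

set_option linter.style.longLine false

/-! MB2, row G: the zeros of the critical orbit are simple (Gleason). -/

namespace Pool.Agent.H48.MB

open Polynomial
open Pool.Agent.H51.IR Pool.Agent.H98.MB

/-- the integer polynomial whose value at `c` is the critical orbit -/
noncomputable def critPoly : ℕ → ℤ[X]
  | 0 => 0
  | n + 1 => critPoly n ^ 2 + X

theorem critPoly_monic (n : ℕ) : (critPoly (n + 1)).Monic ∧ 1 ≤ (critPoly (n + 1)).natDegree := by
  induction n with
  | zero => simp [critPoly, monic_X]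
  | succ n ih =>
    obtain ⟨hm, hd⟩ := ih
    have hm2 : (critPoly (n + 1) ^ 2).Monic := hm.pow 2
    have hd2 : (critPoly (n + 1) ^ 2).natDegree = 2 * (critPoly (n + 1)).natDegree := by
      rw [hm.natDegree_pow]
    have hlt : (X : ℤ[X]).degree < (critPoly (n + 1) ^ 2).degree := by
      rw [degree_X, degree_eq_natDegree hm2.ne_zero, hd2]
      exact_mod_cast (by omega : 1 < 2 * (critPoly (n + 1)).natDegree)
    have h1 : (critPoly (n + 1) ^ 2 + X).Monic := hm2.add_of_left hlt
    refine ⟨h1, ?_⟩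
    show 1 ≤ (critPoly (n + 1) ^ 2 + X).natDegree
    rw [natDegree_add_eq_left_of_degree_lt hlt, hd2]
    omega

theorem aeval_critPoly (c : ℂ) (n : ℕ) : aeval c (critPoly n) = crit c n := by
  induction n with
  | zero => simp [critPoly, crit_zero]
  | succ n ih => simp [critPoly, ih, crit_succ]

theorem isIntegral_crit {a : ℂ} (ha : IsIntegral ℤ a) (j : ℕ) : IsIntegral ℤ (crit a j) := by
  induction j with
  | zero => rw [crit_zero]; exact isIntegral_zero
  | succ j ih => rw [crit_succ]; exact (ih.pow 2).add ha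

theorem isIntegral_Dp {a : ℂ} (ha : IsIntegral ℤ a) (j : ℕ) : IsIntegral ℤ (Dp a j) := by
  induction j with
  | zero => exact isIntegral_zero
  | succ j ih =>
    have h2 : IsIntegral ℤ (2 : ℂ) := by
      have := isIntegral_algebraMap (R := ℤ) (A := ℂ) (x := 2)
      simpa using this
    exact ((h2.mul (isIntegral_crit ha j)).mul ih).add isIntegral_one

theorem not_isIntegral_half : ¬ IsIntegral ℤ ((1 / 2 : ℚ) : ℂ) := by
  intro h
  have h1 : IsIntegral ℤ (algebraMap ℚ ℂ (1 / 2)) := by simpa using h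
  rw [isIntegral_algebraMap_iff (algebraMap ℚ ℂ).injective] at h1
  obtain ⟨m, hm⟩ := IsIntegrallyClosed.isIntegral_iff.1 h1
  have h2 : (2 * m : ℚ) = 1 := by
    have : ((m : ℤ) : ℚ) = 1 / 2 := by simpa using hm
    rw [this]; norm_num
  have h3 : 2 * m = 1 := by exact_mod_cast h2
  omega

/-- row G (Gleason): `c ↦ crit c n` has only simple zeros -/
theorem Dp_ne_zero {a : ℂ} {n : ℕ} (hn : 1 ≤ n) (h : crit a n = 0) : Dp a n ≠ 0 := by
  obtain ⟨m, rfl⟩ := Nat.exists_eq_add_of_le' hn
  have ha : IsIntegral ℤ a := ⟨critPoly (m + 1), (critPoly_monic m).1, by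
    have := aeval_critPoly a (m + 1)
    rw [h] at this
    exact this⟩
  intro h0
  have hu : IsIntegral ℤ (-(crit a m * Dp a m)) := ((isIntegral_crit ha m).mul (isIntegral_Dp ha m)).neg
  have e : -(crit a m * Dp a m) = ((1 / 2 : ℚ) : ℂ) := by
    have h1 : 2 * crit a m * Dp a m + 1 = 0 := h0
    push_cast
    linear_combination (-1 / 2) * h1
  rw [e] at hu
  exact not_isIntegral_half hu

end Pool.Agent.H48.MB
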