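import Pool.Agent.H51.IR.Poly

set_option linter.style.longLine false

/-! Perturbation of the critical orbit of the quadratic map. -/

namespace Pool.Agent.H48.MB

open Finset Pool.Agent.H51.IR

/-- the critical orbit `f_c^j(0)` -/
noncomputable def z (c : ℂ) (j : ℕ) : ℂ := (quad c)^[j] 0

/-- the derivative of the iterate of order `j - 1` at `c` -/
noncomputable def A (c : ℂ) (j : ℕ) : ℂ := ∏ i ∈ Ico 1 j, (2 * z c i)

/-- the sum of the numbers `1 / |A_i|`, `1 ≤ i ≤ j` -/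
noncomputable def T (c : ℂ) (j : ℕ) : ℝ := ∑ i ∈ Icc 1 j, 1 / ‖A c i‖

/-- the derivative of `f_c^j(0)` with respect to `c` -/
noncomputable def D (c : ℂ) : ℕ → ℂ
  | 0 => 0
  | j + 1 => 2 * z c j * D c j + 1

theorem z_zero (c : ℂ) : z c 0 = 0 := rfl

theorem z_succ (c : ℂ) (j : ℕ) : z c (j + 1) = z c j ^ 2 + c := by
  unfold z
  rw [Function.iterate_succ_apply']
  rfl

theorem z_one (c : ℂ) : z c 1 = c := by
  rw [z_succ, z_zero]; ring

theorem A_one (c : ℂ) : A c 1 = 1 := by simp [A]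

theorem A_succ (c : ℂ) {j : ℕ} (hj : 1 ≤ j) : A c (j + 1) = A c j * (2 * z c j) := by
  unfold A
  rw [prod_Ico_succ_top hj]

theorem T_one (c : ℂ) : T c 1 = 1 := by simp [T, A_one]

theorem T_succ (c : ℂ) (j : ℕ) : T c (j + 1) = T c j + 1 / ‖A c (j + 1)‖ := by
  unfold T
  rw [sum_Icc_succ_top (by omega)]

theorem T_nonneg (c : ℂ) (j : ℕ) : 0 ≤ T c j :=
  sum_nonneg fun i _ => by positivity

theorem T_mono (c : ℂ) {i j : ℕ} (hij : i ≤ j) : T c i ≤ T c j :=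
  sum_le_sum_of_subset_of_nonneg (Icc_subset_Icc_right hij) fun i _ _ => by positivity

theorem one_le_T (c : ℂ) {j : ℕ} (hj : 1 ≤ j) : 1 ≤ T c j := by
  have := T_mono c hj
  rwa [T_one] at this

theorem A_ne (c : ℂ) {n j : ℕ} (hz : ∀ i, 1 ≤ i → i < n → z c i ≠ 0) (hj : j ≤ n) : A c j ≠ 0 := by
  unfold A
  rw [prod_ne_zero_iff]
  intro i hi
  rw [mem_Ico] at hi
  exact mul_ne_zero two_ne_zero (hz i hi.1 (by omega))

/-- the general perturbation lemma -/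
theorem pert {n : ℕ} {x y : ℕ → ℂ} {a W : ℕ → ℝ} {d : ℝ}
    (hrec : ∀ j, 1 ≤ j → j < n → ‖y (j + 1) - x (j + 1)‖ ≤ ‖y j - x j‖ * (2 * ‖x j‖ + ‖y j - x j‖) + d)
    (hx : ∀ j, 1 ≤ j → j < n → x j ≠ 0) (ha : ∀ j, 1 ≤ j → j ≤ n → 0 < a j)
    (ha' : ∀ j, 1 ≤ j → j < n → a (j + 1) = a j * (2 * ‖x j‖))
    (hW : ∀ j, 1 ≤ j → j ≤ n → 0 ≤ W j)
    (hW' : ∀ j, 1 ≤ j → j < n → W (j + 1) = W j + d / a (j + 1)) (hd : 0 ≤ d)
    (h1 : ‖y 1 - x 1‖ ≤ a 1 * W 1)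
    (hS : ∑ j ∈ Ico 1 n, a j * W j / ‖x j‖ ≤ 2 / 5) :
    ∀ j, 1 ≤ j → j ≤ n → ‖y j - x j‖ ≤ a j * W j * (1 + ∑ i ∈ Ico 1 j, a i * W i / ‖x i‖) := by
  have hnn : ∀ i ∈ Ico 1 n, 0 ≤ a i * W i / ‖x i‖ := by
    intro i hi
    rw [mem_Ico] at hi
    have := (ha i hi.1 hi.2.le).le
    have := hW i hi.1 hi.2.le
    positivity
  have hle : ∀ j ≤ n, ∑ i ∈ Ico 1 j, a i * W i / ‖x i‖ ≤ 2 / 5 := by
    intro j hj
    refine le_trans (sum_le_sum_of_subset_of_nonneg (Ico_subset_Ico_right hj) ?_) hS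
    intro i hi _
    exact hnn i hi
  have hge : ∀ j ≤ n, 0 ≤ ∑ i ∈ Ico 1 j, a i * W i / ‖x i‖ := by
    intro j hj
    refine sum_nonneg fun i hi => hnn i ?_
    rw [mem_Ico] at hi ⊢
    omega
  intro j hj
  induction j, hj using Nat.le_induction with
  | base => intro _; simpa using h1
  | succ j hj ih =>
    intro hjn
    have ih := ih (by omega)
    have hX : 0 < ‖x j‖ := norm_pos_iff.2 (hx j hj (by omega))
    have haj := ha j hj (by omega)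
    have haj1 := ha (j + 1) (by omega) hjn
    have hWj := hW j hj (by omega)
    have hS0 := hge j (by omega)
    have hS1 := hle j (by omega)
    have hS2 : ∑ i ∈ Ico 1 (j + 1), a i * W i / ‖x i‖ =
        ∑ i ∈ Ico 1 j, a i * W i / ‖x i‖ + a j * W j / ‖x j‖ := sum_Ico_succ_top hj _
    rw [hS2]
    set S := ∑ i ∈ Ico 1 j, a i * W i / ‖x i‖ with hSdef
    set t := a j * W j / ‖x j‖ with ht
    have ht0 : 0 ≤ t := by positivity
    have htX : a j * W j = ‖x j‖ * t := by rw [ht]; field_simp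
    have hΔ0 : 0 ≤ ‖y j - x j‖ := norm_nonneg _
    have hΔ : ‖y j - x j‖ ≤ ‖x j‖ * t * (1 + S) := by rw [← htX]; exact ih
    have e1 := hrec j hj (by omega)
    have e2 : ‖y j - x j‖ * (2 * ‖x j‖ + ‖y j - x j‖) ≤
        (‖x j‖ * t * (1 + S)) * (2 * ‖x j‖ + ‖x j‖ * t * (1 + S)) := by
      apply mul_le_mul hΔ (by linarith) (by positivity) (by positivity)
    have e3 : (‖x j‖ * t * (1 + S)) * (2 * ‖x j‖ + ‖x j‖ * t * (1 + S)) ≤
        2 * ‖x j‖ * (‖x j‖ * t) * (1 + (S + t)) := by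
      have hsq : (1 + S) ^ 2 ≤ 2 := by nlinarith
      have : 2 * ‖x j‖ * (‖x j‖ * t) * (1 + (S + t)) -
          (‖x j‖ * t * (1 + S)) * (2 * ‖x j‖ + ‖x j‖ * t * (1 + S)) =
          ‖x j‖ ^ 2 * t ^ 2 * (2 - (1 + S) ^ 2) := by ring
      have h5 : 0 ≤ ‖x j‖ ^ 2 * t ^ 2 * (2 - (1 + S) ^ 2) :=
        mul_nonneg (by positivity) (by linarith)
      linarith
    have e4 : 2 * ‖x j‖ * (‖x j‖ * t) * (1 + (S + t)) = a (j + 1) * W j * (1 + (S + t)) := by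
      rw [← htX, ha' j hj (by omega)]; ring
    have e5 : d ≤ a (j + 1) * (d / a (j + 1)) * (1 + (S + t)) := by
      have : a (j + 1) * (d / a (j + 1)) = d := by field_simp
      rw [this]
      nlinarith [mul_nonneg hd (add_nonneg hS0 ht0)]
    rw [hW' j hj (by omega)]
    calc ‖y (j + 1) - x (j + 1)‖ ≤ ‖y j - x j‖ * (2 * ‖x j‖ + ‖y j - x j‖) + d := e1
      _ ≤ a (j + 1) * W j * (1 + (S + t)) + a (j + 1) * (d / a (j + 1)) * (1 + (S + t)) := by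
          rw [← e4]; linarith
      _ = a (j + 1) * (W j + d / a (j + 1)) * (1 + (S + t)) := by ring

theorem norm_mul_add_le (u v : ℂ) : ‖v ^ 2 - u ^ 2‖ ≤ ‖v - u‖ * (2 * ‖u‖ + ‖v - u‖) := by
  have h : v ^ 2 - u ^ 2 = (v - u) * (2 * u + (v - u)) := by ring
  rw [h, norm_mul]
  refine mul_le_mul_of_nonneg_left ((norm_add_le _ _).trans ?_) (norm_nonneg _)
  rw [norm_mul]
  simp

/-- change of the critical orbit with the parameter -/
theorem z_pert {c c' : ℂ} {n : ℕ} (hz : ∀ j, 1 ≤ j → j < n → z c j ≠ 0)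
    (hS : (∑ j ∈ Ico 1 n, ‖A c j‖ * T c j / ‖z c j‖) * ‖c' - c‖ ≤ 2 / 5) :
    ∀ j, 1 ≤ j → j ≤ n → ‖z c' j - z c j‖ ≤ ‖A c j‖ * T c j * ‖c' - c‖ *
      (1 + (∑ i ∈ Ico 1 j, ‖A c i‖ * T c i / ‖z c i‖) * ‖c' - c‖) := by
  have h := pert (n := n) (x := z c) (y := z c') (a := fun j => ‖A c j‖)
    (W := fun j => T c j * ‖c' - c‖) (d := ‖c' - c‖) ?_ hz ?_ ?_ ?_ ?_ (norm_nonneg _) ?_ ?_
  · intro j hj hjn
    have := h j hj hjn
    have e : ∑ i ∈ Ico 1 j, ‖A c i‖ * (T c i * ‖c' - c‖) / ‖z c i‖ =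
        (∑ i ∈ Ico 1 j, ‖A c i‖ * T c i / ‖z c i‖) * ‖c' - c‖ := by
      rw [sum_mul]
      exact sum_congr rfl fun i _ => by ring
    rw [e] at this
    calc ‖z c' j - z c j‖ ≤ _ := this
      _ = _ := by ring
  · intro j _ _
    rw [z_succ, z_succ]
    have : z c' j ^ 2 + c' - (z c j ^ 2 + c) = (z c' j ^ 2 - z c j ^ 2) + (c' - c) := by ring
    rw [this]
    exact (norm_add_le _ _).trans (add_le_add (norm_mul_add_le _ _) le_rfl)
  · intro j _ hj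
    exact norm_pos_iff.2 (A_ne c hz hj)
  · intro j hj _
    show ‖A c (j + 1)‖ = ‖A c j‖ * (2 * ‖z c j‖)
    rw [A_succ c hj, norm_mul, norm_mul]
    simp
  · intro j _ _
    exact mul_nonneg (T_nonneg c j) (norm_nonneg _)
  · intro j _ _
    show T c (j + 1) * ‖c' - c‖ = T c j * ‖c' - c‖ + ‖c' - c‖ / ‖A c (j + 1)‖
    rw [T_succ]; ring
  · show ‖z c' 1 - z c 1‖ ≤ ‖A c 1‖ * (T c 1 * ‖c' - c‖)
    rw [z_one, z_one, A_one, T_one]; simp
  · refine le_trans (le_of_eq ?_) hS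
    rw [sum_mul]
    exact sum_congr rfl fun i _ => by ring

/-- change of the orbit of a point near the critical value -/
theorem orbit_pert {c u : ℂ} {n : ℕ} (hz : ∀ j, 1 ≤ j → j < n → z c j ≠ 0)
    (hS : (∑ j ∈ Ico 1 n, ‖A c j‖ / ‖z c j‖) * ‖u‖ ≤ 2 / 5) :
    ∀ j, 1 ≤ j → j ≤ n → ‖(quad c)^[j - 1] (c + u) - z c j‖ ≤ ‖A c j‖ * ‖u‖ *
      (1 + (∑ i ∈ Ico 1 j, ‖A c i‖ / ‖z c i‖) * ‖u‖) := by
  have h := pert (n := n) (x := z c) (y := fun j => (quad c)^[j - 1] (c + u)) (a := fun j => ‖A c j‖)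
    (W := fun _ => ‖u‖) (d := 0) ?_ hz ?_ ?_ ?_ ?_ le_rfl ?_ ?_
  · intro j hj hjn
    have := h j hj hjn
    have e : ∑ i ∈ Ico 1 j, ‖A c i‖ * ‖u‖ / ‖z c i‖ =
        (∑ i ∈ Ico 1 j, ‖A c i‖ / ‖z c i‖) * ‖u‖ := by
      rw [sum_mul]
      exact sum_congr rfl fun i _ => by ring
    rw [e] at this
    exact this
  · intro j hj _
    obtain ⟨i, rfl⟩ := Nat.exists_eq_add_of_le' hj
    show ‖(quad c)^[i + 1 + 1 - 1] (c + u) - z c (i + 1 + 1)‖ ≤
      ‖(quad c)^[i + 1 - 1] (c + u) - z c (i + 1)‖ *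
        (2 * ‖z c (i + 1)‖ + ‖(quad c)^[i + 1 - 1] (c + u) - z c (i + 1)‖) + 0
    rw [z_succ c (i + 1), add_zero, Nat.add_sub_cancel, Nat.add_sub_cancel,
      Function.iterate_succ_apply']
    have : quad c ((quad c)^[i] (c + u)) - (z c (i + 1) ^ 2 + c) =
        ((quad c)^[i] (c + u)) ^ 2 - z c (i + 1) ^ 2 := by
      unfold quad; ring
    rw [this]
    exact norm_mul_add_le _ _
  · intro j _ hj
    exact norm_pos_iff.2 (A_ne c hz hj)
  · intro j hj _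
    show ‖A c (j + 1)‖ = ‖A c j‖ * (2 * ‖z c j‖)
    rw [A_succ c hj, norm_mul, norm_mul]
    simp
  · intro j _ _
    exact norm_nonneg _
  · intro j _ _
    simp
  · show ‖(quad c)^[1 - 1] (c + u) - z c 1‖ ≤ ‖A c 1‖ * ‖u‖
    rw [z_one, A_one]; simp
  · refine le_trans (le_of_eq ?_) hS
    rw [sum_mul]
    exact sum_congr rfl fun i _ => by ring

/-- relative change of a product -/
theorem prod_ratio {s : Finset ℕ} {x y : ℕ → ℂ} (hx : ∀ i ∈ s, x i ≠ 0) {σ : ℝ}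
    (h : ∑ i ∈ s, ‖y i - x i‖ / ‖x i‖ ≤ σ) :
    ‖∏ i ∈ s, (2 * y i) - ∏ i ∈ s, (2 * x i)‖ ≤ ‖∏ i ∈ s, (2 * x i)‖ * (Real.exp σ - 1) := by
  have h1 : ∏ i ∈ s, (2 * y i) = (∏ i ∈ s, (2 * x i)) * ∏ i ∈ s, (1 + (y i - x i) / x i) := by
    rw [← prod_mul_distrib]
    refine prod_congr rfl fun i hi => ?_
    have := hx i hi
    field_simp
    ring
  rw [h1, ← mul_sub_one, norm_mul]
  refine mul_le_mul_of_nonneg_left ?_ (norm_nonneg _)
  refine (s.norm_prod_one_add_sub_one_le _).trans ?_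
  refine sub_le_sub_right (Real.exp_le_exp.2 (le_trans (le_of_eq ?_) h)) 1
  exact sum_congr rfl fun i _ => by rw [norm_div]

theorem D_eq {c : ℂ} {n : ℕ} (hn : 1 ≤ n) (hz : ∀ j, 1 ≤ j → j < n → z c j ≠ 0) :
    D c n = ∑ i ∈ Icc 1 n, ∏ l ∈ Ico i n, (2 * z c l) := by
  induction n, hn using Nat.le_induction with
  | base => simp [D]
  | succ n hn ih =>
    have ih := ih fun j hj hjn => hz j hj (by omega)
    rw [sum_Icc_succ_top (by omega), Ico_self, prod_empty]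
    show 2 * z c n * D c n + 1 = _
    rw [ih, mul_sum]
    congr 1
    refine sum_congr rfl fun i hi => ?_
    rw [mem_Icc] at hi
    rw [prod_Ico_succ_top hi.2, mul_comm]

theorem norm_tail {c : ℂ} {n i : ℕ} (hi : 1 ≤ i) (hin : i ≤ n)
    (hz : ∀ j, 1 ≤ j → j < n → z c j ≠ 0) :
    ‖∏ l ∈ Ico i n, (2 * z c l)‖ = ‖A c n‖ * (1 / ‖A c i‖) := by
  have h : A c n = A c i * ∏ l ∈ Ico i n, (2 * z c l) := by
    unfold A
    exact (prod_Ico_consecutive _ hi hin).symm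
  have h0 := norm_pos_iff.2 (A_ne c hz hin)
  rw [h, norm_mul]
  field_simp

/-- change of the derivative with the parameter -/
theorem D_pert {c c' : ℂ} {n : ℕ} (hn : 1 ≤ n) (hz : ∀ j, 1 ≤ j → j < n → z c j ≠ 0)
    (hz' : ∀ j, 1 ≤ j → j < n → z c' j ≠ 0) {σ : ℝ}
    (h : ∑ i ∈ Ico 1 n, ‖z c' i - z c i‖ / ‖z c i‖ ≤ σ) :
    ‖D c' n - D c n‖ ≤ ‖A c n‖ * T c n * (Real.exp σ - 1) := by
  rw [D_eq hn hz, D_eq hn hz', ← sum_sub_distrib]
  refine (norm_sum_le _ _).trans ?_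
  unfold T
  rw [mul_sum, sum_mul]
  refine sum_le_sum fun i hi => ?_
  rw [mem_Icc] at hi
  rw [← norm_tail hi.1 hi.2 hz]
  refine prod_ratio ?_ ?_
  · intro l hl
    rw [mem_Ico] at hl
    exact hz l (by omega) hl.2
  · refine le_trans (sum_le_sum_of_subset_of_nonneg (Ico_subset_Ico_left hi.1) ?_) h
    intro l _ _
    positivity

theorem A_pert {c c' : ℂ} {n : ℕ} (hz : ∀ j, 1 ≤ j → j < n → z c j ≠ 0) {σ : ℝ}
    (h : ∑ i ∈ Ico 1 n, ‖z c' i - z c i‖ / ‖z c i‖ ≤ σ) {j : ℕ} (hj : j ≤ n) :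
    ‖A c' j - A c j‖ ≤ ‖A c j‖ * (Real.exp σ - 1) := by
  refine prod_ratio ?_ ?_
  · intro l hl
    rw [mem_Ico] at hl
    exact hz l (by omega) (by omega)
  · refine le_trans (sum_le_sum_of_subset_of_nonneg (Ico_subset_Ico_right hj) ?_) h
    intro l _ _
    positivity

theorem norm_D_le {c : ℂ} {n : ℕ} (hn : 1 ≤ n) (hz : ∀ j, 1 ≤ j → j < n → z c j ≠ 0) :
    ‖D c n‖ ≤ ‖A c n‖ * T c n := by
  rw [D_eq hn hz]
  refine (norm_sum_le _ _).trans ?_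
  unfold T
  rw [mul_sum]
  refine sum_le_sum fun i hi => ?_
  rw [mem_Icc] at hi
  rw [← norm_tail hi.1 hi.2 hz]

theorem hasDerivAt_z (c : ℂ) (j : ℕ) : HasDerivAt (fun c => z c j) (D c j) c := by
  induction j with
  | zero => simpa [z, D] using hasDerivAt_const c (0 : ℂ)
  | succ j ih =>
    have h : (fun c => z c (j + 1)) = fun c => z c j * z c j + c := by
      funext c; rw [z_succ c j]; ring
    rw [h]
    have h2 : HasDerivAt (fun c => z c j * z c j + c) (D c j * z c j + z c j * D c j + 1) c :=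
      (ih.fun_mul ih).fun_add (hasDerivAt_id' c)
    refine h2.congr_deriv ?_
    show _ = 2 * z c j * D c j + 1
    ring

end Pool.Agent.H48.MB
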