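import Pool.Agent.H51.IR.Box

set_option linter.style.longLine false

/-! If an iterate of order `n` of the quadratic map contracts a disc around `0` then the map is not
renormalizable with any period larger than `n`. -/

namespace Pool.Agent.H48.MB

open Polynomial Filter Topology Set Pool.Agent.H51.IR

variable {c : ℂ} {n p : ℕ} {R q : ℝ}

/-- the points whose orbit under the `n`-th iterate enters the disc of radius `R` -/
def basin (c : ℂ) (n : ℕ) (R : ℝ) : Set ℂ := {z | ∃ k : ℕ, ‖(quad c)^[n * k] z‖ < R}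

/-- the points whose orbit under the `p`-th iterate stays in `U` -/
def stay (c : ℂ) (p : ℕ) (U : Set ℂ) : Set ℂ := {z | ∀ k : ℕ, (quad c)^[k * p] z ∈ U}

theorem continuous_it (c : ℂ) (m : ℕ) : Continuous ((quad c)^[m]) := continuous_iterate_right m c

theorem isOpen_basin (c : ℂ) (n : ℕ) (R : ℝ) : IsOpen (basin c n R) := by
  have : basin c n R = ⋃ k : ℕ, {z | ‖(quad c)^[n * k] z‖ < R} := by
    ext z; simp [basin]
  rw [this]
  exact isOpen_iUnion fun k => isOpen_lt (continuous_it c _).norm continuous_const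

theorem ball_it (hmap : ∀ z : ℂ, ‖z‖ ≤ R → ‖(quad c)^[n] z‖ < R) {z : ℂ} (hz : ‖z‖ ≤ R) (k : ℕ) :
    ‖(quad c)^[n * k] z‖ ≤ R := by
  induction k with
  | zero => simpa using hz
  | succ k ih =>
    have : (quad c)^[n * (k + 1)] z = (quad c)^[n] ((quad c)^[n * k] z) := by
      rw [← Function.iterate_add_apply, Nat.mul_succ, Nat.add_comm]
    rw [this]
    exact (hmap _ ih).le

theorem lip_it (hmap : ∀ z : ℂ, ‖z‖ ≤ R → ‖(quad c)^[n] z‖ < R)
    (hlip : ∀ z w : ℂ, ‖z‖ ≤ R → ‖w‖ ≤ R → ‖(quad c)^[n] z - (quad c)^[n] w‖ ≤ q * ‖z - w‖)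
    (hq0 : 0 ≤ q) {z w : ℂ} (hz : ‖z‖ ≤ R) (hw : ‖w‖ ≤ R) (k : ℕ) :
    ‖(quad c)^[n * k] z - (quad c)^[n * k] w‖ ≤ q ^ k * (2 * R) := by
  induction k with
  | zero =>
    have := norm_sub_le z w
    simp only [Nat.mul_zero, Function.iterate_zero, id_eq, pow_zero, one_mul]
    linarith
  | succ k ih =>
    have h1 : ∀ z : ℂ, (quad c)^[n * (k + 1)] z = (quad c)^[n] ((quad c)^[n * k] z) := by
      intro z
      rw [← Function.iterate_add_apply, Nat.mul_succ, Nat.add_comm]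
    rw [h1, h1]
    refine (hlip _ _ (ball_it hmap hz k) (ball_it hmap hw k)).trans ?_
    calc q * ‖(quad c)^[n * k] z - (quad c)^[n * k] w‖ ≤ q * (q ^ k * (2 * R)) :=
          mul_le_mul_of_nonneg_left ih hq0
      _ = q ^ (k + 1) * (2 * R) := by ring

theorem exists_unif (n : ℕ) {ε : ℝ} (hε : 0 < ε) :
    ∃ δ : ℝ, 0 < δ ∧ ∀ x y : ℂ, ‖x‖ ≤ R → ‖y‖ ≤ R → ‖x - y‖ < δ → ∀ r < n,
      ‖(quad c)^[r] x - (quad c)^[r] y‖ < ε := by
  have key : ∀ m : ℕ, ∃ δ : ℝ, 0 < δ ∧ ∀ x y : ℂ, ‖x‖ ≤ R → ‖y‖ ≤ R → ‖x - y‖ < δ → ∀ r < m,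
      ‖(quad c)^[r] x - (quad c)^[r] y‖ < ε := by
    intro m
    induction m with
    | zero => exact ⟨1, one_pos, fun x y _ _ _ r hr => absurd hr (Nat.not_lt_zero r)⟩
    | succ m ih =>
      obtain ⟨δ, hδ, h⟩ := ih
      have h1 : UniformContinuousOn ((quad c)^[m]) (Metric.closedBall (0 : ℂ) R) :=
        (isCompact_closedBall (0 : ℂ) R).uniformContinuousOn_of_continuous
          (continuous_it c m).continuousOn
      obtain ⟨δ', hδ', h'⟩ := Metric.uniformContinuousOn_iff.1 h1 ε hε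
      refine ⟨min δ δ', lt_min hδ hδ', fun x y hx hy hxy r hr => ?_⟩
      rcases Nat.lt_succ_iff_lt_or_eq.1 hr with hr | rfl
      · exact h x y hx hy (hxy.trans_le (min_le_left _ _)) r hr
      · have := h' x (by simpa using hx) y (by simpa using hy)
          (by rw [dist_eq_norm]; exact hxy.trans_le (min_le_right _ _))
        rwa [dist_eq_norm] at this
  exact key n

theorem exists_close (hn : 1 ≤ n) (hq0 : 0 ≤ q) (hq : q < 1)
    (hmap : ∀ z : ℂ, ‖z‖ ≤ R → ‖(quad c)^[n] z‖ < R)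
    (hlip : ∀ z w : ℂ, ‖z‖ ≤ R → ‖w‖ ≤ R → ‖(quad c)^[n] z - (quad c)^[n] w‖ ≤ q * ‖z - w‖)
    (k₀ : ℕ) {ε : ℝ} (hε : 0 < ε) :
    ∃ m₀ : ℕ, ∀ z w : ℂ, ‖(quad c)^[n * k₀] z‖ ≤ R → ‖(quad c)^[n * k₀] w‖ ≤ R →
      ∀ m ≥ m₀, ‖(quad c)^[m] z - (quad c)^[m] w‖ < ε := by
  obtain ⟨δ, hδ, h⟩ := exists_unif (c := c) (R := R) n hε
  have hlim : Tendsto (fun k : ℕ => q ^ k * (2 * R)) atTop (𝓝 0) := by
    simpa using (tendsto_pow_atTop_nhds_zero_of_lt_one hq0 hq).mul_const (2 * R)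
  obtain ⟨k₁, hk₁⟩ := eventually_atTop.1 (hlim.eventually_lt_const hδ)
  refine ⟨n * (k₀ + k₁), fun z w hz hw m hm => ?_⟩
  obtain ⟨k, r, hr, rfl⟩ : ∃ k r, r < n ∧ m = r + n * k :=
    ⟨m / n, m % n, Nat.mod_lt _ hn, (Nat.mod_add_div m n).symm⟩
  have hk : k₀ + k₁ ≤ k := by
    by_contra hcon
    have h2 : k + 1 ≤ k₀ + k₁ := by omega
    have h3 := Nat.mul_le_mul_left n h2
    rw [Nat.mul_succ] at h3
    omega
  obtain ⟨l, rfl⟩ := Nat.exists_eq_add_of_le (le_trans (Nat.le_add_right k₀ k₁) hk)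
  have hl : k₁ ≤ l := by omega
  have h1 : ∀ z : ℂ, (quad c)^[r + n * (k₀ + l)] z =
      (quad c)^[r] ((quad c)^[n * l] ((quad c)^[n * k₀] z)) := by
    intro z
    have h2 : r + n * (k₀ + l) = r + (n * l + n * k₀) := by ring
    rw [h2, Function.iterate_add_apply, Function.iterate_add_apply]
  rw [h1, h1]
  exact h _ _ (ball_it hmap hz l) (ball_it hmap hw l)
    (lt_of_le_of_lt (lip_it hmap hlip hq0 hz hw l) (hk₁ l hl)) r hr

theorem isClosed_stay {U : Set ℂ} (h : IsQuadLike (iterPoly c p) U) : IsClosed (stay c p U) := by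
  have hsub : stay c p U ⊆ U := fun z hz => by simpa using hz 0
  have hmaps : ∀ k : ℕ, MapsTo ((quad c)^[k * p]) (stay c p U) (stay c p U) := by
    intro k z hz l
    rw [← Function.iterate_add_apply, ← Nat.add_mul]
    exact hz _
  have key : closure (stay c p U) ⊆ U := by
    intro z hz
    have h1 : (quad c)^[1 * p] z ∈ closure (stay c p U) :=
      (hmaps 1).closure (continuous_it c _) hz
    have h2 := interior_subset (h.closure_subset (closure_mono hsub h1))
    refine h.closure_inter ⟨closure_mono hsub hz, ?_⟩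
    rw [mem_preimage, eval_iterPoly]
    simpa using h2
  refine isClosed_of_closure_subset fun z hz k => ?_
  exact key ((hmaps k).closure (continuous_it c _) hz)

theorem isOpen_basin_inter_stay (hn : 1 ≤ n) (hp : 1 ≤ p) (hq0 : 0 ≤ q) (hq : q < 1)
    (hmap : ∀ z : ℂ, ‖z‖ ≤ R → ‖(quad c)^[n] z‖ < R)
    (hlip : ∀ z w : ℂ, ‖z‖ ≤ R → ‖w‖ ≤ R → ‖(quad c)^[n] z - (quad c)^[n] w‖ ≤ q * ‖z - w‖)
    {U : Set ℂ} (h : IsQuadLike (iterPoly c p) U) : IsOpen (basin c n R ∩ stay c p U) := by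
  have hsub : stay c p U ⊆ U := fun z hz => by simpa using hz 0
  have hcomp : IsCompact (stay c p U) :=
    Metric.isCompact_of_isClosed_isBounded (isClosed_stay h) (h.isBounded.subset hsub)
  obtain ⟨ε, hε, hthick⟩ := hcomp.exists_thickening_subset_open h.isOpen hsub
  rw [isOpen_iff_mem_nhds]
  rintro z ⟨⟨k₀, hk₀⟩, hz⟩
  obtain ⟨m₀, hm₀⟩ := exists_close hn hq0 hq hmap hlip k₀ hε
  have e1 : ∀ᶠ z' in 𝓝 z, ‖(quad c)^[n * k₀] z'‖ < R :=
    ((continuous_it c _).norm.tendsto z).eventually_lt_const hk₀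
  have e2 : ∀ᶠ z' in 𝓝 z, ∀ k ∈ Finset.range m₀, (quad c)^[k * p] z' ∈ U := by
    rw [Finset.eventually_all]
    intro k _
    exact (continuous_it c _).continuousAt.preimage_mem_nhds (h.isOpen.mem_nhds (hz k))
  filter_upwards [e1, e2] with z' h1 h2
  refine ⟨⟨k₀, h1⟩, fun k => ?_⟩
  rcases Nat.lt_or_ge k m₀ with hk | hk
  · exact h2 k (Finset.mem_range.2 hk)
  · apply hthick
    rw [Metric.mem_thickening_iff]
    refine ⟨(quad c)^[k * p] z, ?_, ?_⟩
    · intro l
      rw [← Function.iterate_add_apply, ← Nat.add_mul]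
      exact hz _
    · rw [dist_eq_norm]
      exact hm₀ _ _ h1.le hk₀.le _ (hk.trans (Nat.le_mul_of_pos_right k hp))

theorem exists_zero (hR : 0 < R) (hmap : ∀ z : ℂ, ‖z‖ ≤ R → ‖(quad c)^[n] z‖ < R) :
    ∃ z ∈ connectedComponentIn (basin c n R) 0, (quad c)^[n] z = 0 := by
  set D := connectedComponentIn (basin c n R) 0 with hD
  have h0b : (0 : ℂ) ∈ basin c n R := ⟨0, by simpa using hR⟩
  have hDo : IsOpen D := (isOpen_basin c n R).connectedComponentIn
  have hDp : IsPreconnected D := isPreconnected_connectedComponentIn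
  have hDb : D ⊆ basin c n R := connectedComponentIn_subset _ _
  have h0D : (0 : ℂ) ∈ D := mem_connectedComponentIn h0b
  have hball : Metric.ball (0 : ℂ) R ⊆ D := by
    refine (convex_ball (0 : ℂ) R).isPreconnected.subset_connectedComponentIn
      (Metric.mem_ball_self hR) ?_
    intro z hz
    exact ⟨0, by simpa using hz⟩
  have hcl : closure D ∩ basin c n R ⊆ D := by
    have hpre : IsPreconnected (closure D ∩ basin c n R) :=
      hDp.subset_closure (fun z hz => ⟨subset_closure hz, hDb hz⟩) inter_subset_left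
    exact hpre.subset_connectedComponentIn ⟨subset_closure h0D, h0b⟩ inter_subset_right
  have hg : (fun z => (iterPoly c n).eval z) = (quad c)^[n] := eval_eq_fun c n
  have hop : IsOpenMap ((quad c)^[n]) := by
    rw [← hg]; exact isOpenMap_eval (degree_iterPoly_pos c n)
  have hmain : D ⊆ (quad c)^[n] '' D := by
    refine hDp.subset_of_closure_inter_subset (hop _ hDo) ⟨(quad c)^[n] 0, ?_, ⟨0, h0D, rfl⟩⟩ ?_
    · apply hball
      simpa using hmap 0 (by simpa using hR.le)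
    · rintro w ⟨hw, hwD⟩
      obtain ⟨u, hu, hlim⟩ := mem_closure_iff_seq_limit.1 hw
      choose v hv hvu using hu
      have hbd : Bornology.IsBounded ((fun z => (iterPoly c n).eval z) ⁻¹' (range u)) :=
        isBounded_preimage (degree_iterPoly_pos c n) (Metric.isBounded_range_of_tendsto u hlim)
      obtain ⟨z, -, φ, hφ, hz⟩ := tendsto_subseq_of_bounded hbd (x := v) (by
        intro m
        refine ⟨m, ?_⟩
        show u m = (iterPoly c n).eval (v m)
        rw [eval_iterPoly, hvu m])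
      have hgz : (quad c)^[n] z = w := by
        have h1 : Tendsto (fun m => (quad c)^[n] (v (φ m))) atTop (𝓝 ((quad c)^[n] z)) :=
          ((continuous_it c n).tendsto z).comp hz
        have h2 : Tendsto (fun m => (quad c)^[n] (v (φ m))) atTop (𝓝 w) := by
          have := hlim.comp hφ.tendsto_atTop
          refine this.congr fun m => ?_
          simp only [Function.comp_apply, hvu]
        exact tendsto_nhds_unique h1 h2
      refine ⟨z, hcl ⟨mem_closure_of_tendsto hz (Eventually.of_forall fun m => hv _), ?_⟩, hgz⟩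
      obtain ⟨k, hk⟩ := hDb hwD
      refine ⟨k + 1, ?_⟩
      rw [Nat.mul_succ, Function.iterate_add_apply, hgz]
      exact hk
  exact hmain h0D

/-- An attracting cycle of period `n` whose basin contains a disc around `0` excludes all
renormalization periods larger than `n`. -/
theorem not_isRenorm_of_attracting (hn : 1 ≤ n) (hnp : n < p) (hR : 0 < R) (hq0 : 0 ≤ q)
    (hq : q < 1) (hmap : ∀ z : ℂ, ‖z‖ ≤ R → ‖(quad c)^[n] z‖ < R)
    (hlip : ∀ z w : ℂ, ‖z‖ ≤ R → ‖w‖ ≤ R → ‖(quad c)^[n] z - (quad c)^[n] w‖ ≤ q * ‖z - w‖) :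
    ¬ IsRenorm p c := by
  rintro ⟨hp2, U, h0, hU, horb, -⟩
  have hp1 : 1 ≤ p := by omega
  obtain ⟨z, hz, hz0⟩ := exists_zero (c := c) (n := n) hR hmap
  have h0b : (0 : ℂ) ∈ basin c n R := ⟨0, by simpa using hR⟩
  have h0s : (0 : ℂ) ∈ stay c p U := by
    intro k
    rcases Nat.eq_zero_or_pos k with rfl | hk
    · simpa using h0
    · exact horb k hk
  have hsub : connectedComponentIn (basin c n R) 0 ⊆ basin c n R ∩ stay c p U := by
    refine isPreconnected_connectedComponentIn.subset_of_closure_inter_subset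
      (isOpen_basin_inter_stay hn hp1 hq0 hq hmap hlip hU)
      ⟨0, mem_connectedComponentIn h0b, h0b, h0s⟩ ?_
    rintro w ⟨hw, hwD⟩
    refine ⟨connectedComponentIn_subset _ _ hwD, ?_⟩
    have := closure_mono (inter_subset_right (s := basin c n R) (t := stay c p U)) hw
    rwa [(isClosed_stay hU).closure_eq] at this
  have hzU : z ∈ U := by simpa using (hsub hz).2 0
  have := hU.sum_ne hp1 h0 hzU hzU hn hnp
  rw [hz0, add_zero] at this
  exact this rfl

theorem periods_finite_of_attracting (hn : 1 ≤ n) (hR : 0 < R) (hq0 : 0 ≤ q)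
    (hq : q < 1) (hmap : ∀ z : ℂ, ‖z‖ ≤ R → ‖(quad c)^[n] z‖ < R)
    (hlip : ∀ z w : ℂ, ‖z‖ ≤ R → ‖w‖ ≤ R → ‖(quad c)^[n] z - (quad c)^[n] w‖ ≤ q * ‖z - w‖) :
    c ∉ infRenorm := by
  intro h
  obtain ⟨p, hp, hnp⟩ := h.exists_gt n
  exact not_isRenorm_of_attracting hn hnp hR hq0 hq hmap hlip hp

end Pool.Agent.H48.MB
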