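import Pool.Agent.H48.MB.Pert
import Pool.Agent.H48.MB.NoRenorm

set_option linter.style.longLine false

/-! The iterate of order `n` on a small disc around the critical point. -/

namespace Pool.Agent.H48.MB

open Finset Pool.Agent.H51.IR

theorem iterate_sub_eq (c v v' : ℂ) (m : ℕ) :
    (quad c)^[m] v - (quad c)^[m] v' =
      (v - v') * ∏ i ∈ Ico 1 (m + 1), ((quad c)^[i - 1] v + (quad c)^[i - 1] v') := by
  induction m with
  | zero => simp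
  | succ m ih =>
    rw [prod_Ico_succ_top (by omega), ← mul_assoc, ← ih, Function.iterate_succ_apply',
      Function.iterate_succ_apply', Nat.add_sub_cancel]
    unfold quad
    ring

theorem exp_small : Real.exp (23 / 10000) ≤ 1 / (1 - 23 / 10000) :=
  Real.exp_bound_div_one_sub_of_interval (by norm_num) (by norm_num)

theorem orbit_pert_small {c u : ℂ} {n : ℕ} (hz : ∀ j, 1 ≤ j → j < n → z c j ≠ 0)
    (hC : ∑ j ∈ Ico 1 n, ‖A c j‖ / ‖z c j‖ ≤ 113 / 10000 * ‖A c n‖ ^ 2)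
    (hu : ‖u‖ * ‖A c n‖ ^ 2 ≤ 2025 / 10000) :
    ∀ j, 1 ≤ j → j ≤ n →
      ‖(quad c)^[j - 1] (c + u) - z c j‖ ≤ ‖A c j‖ * ‖u‖ * (10023 / 10000) := by
  have ha : 0 < ‖A c n‖ := norm_pos_iff.2 (A_ne c hz le_rfl)
  have hS : (∑ j ∈ Ico 1 n, ‖A c j‖ / ‖z c j‖) * ‖u‖ ≤ 23 / 10000 := by
    calc (∑ j ∈ Ico 1 n, ‖A c j‖ / ‖z c j‖) * ‖u‖ ≤ 113 / 10000 * ‖A c n‖ ^ 2 * ‖u‖ :=
          mul_le_mul_of_nonneg_right hC (norm_nonneg _)
      _ ≤ 23 / 10000 := by nlinarith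
  intro j hj hjn
  refine (orbit_pert hz (hS.trans (by norm_num)) j hj hjn).trans ?_
  refine mul_le_mul_of_nonneg_left ?_ (by positivity)
  have : (∑ i ∈ Ico 1 j, ‖A c i‖ / ‖z c i‖) * ‖u‖ ≤ (∑ i ∈ Ico 1 n, ‖A c i‖ / ‖z c i‖) * ‖u‖ := by
    refine mul_le_mul_of_nonneg_right ?_ (norm_nonneg _)
    exact sum_le_sum_of_subset_of_nonneg (Ico_subset_Ico_right hjn) fun i _ _ => by positivity
  linarith

theorem dyn_map {c w : ℂ} {n : ℕ} (hz : ∀ j, 1 ≤ j → j < n → z c j ≠ 0) (hn : 1 ≤ n)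
    (hC : ∑ j ∈ Ico 1 n, ‖A c j‖ / ‖z c j‖ ≤ 113 / 10000 * ‖A c n‖ ^ 2)
    (hzn : ‖z c n‖ * ‖A c n‖ ≤ 13 / 100) (hw : ‖w‖ ≤ 45 / 100 / ‖A c n‖) :
    ‖(quad c)^[n] w‖ < 45 / 100 / ‖A c n‖ := by
  have ha : 0 < ‖A c n‖ := norm_pos_iff.2 (A_ne c hz le_rfl)
  have hw' : ‖w‖ * ‖A c n‖ ≤ 45 / 100 := (le_div_iff₀ ha).1 hw
  have hu : ‖w ^ 2‖ * ‖A c n‖ ^ 2 ≤ 2025 / 10000 := by
    rw [norm_pow, ← mul_pow]
    nlinarith [mul_nonneg (norm_nonneg w) ha.le]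
  have h := orbit_pert_small hz hC hu n hn le_rfl
  obtain ⟨m, rfl⟩ := Nat.exists_eq_add_of_le' hn
  rw [lt_div_iff₀ ha, Function.iterate_succ_apply]
  have e : quad c w = c + w ^ 2 := by unfold quad; ring
  rw [e]
  rw [Nat.add_sub_cancel] at h
  have h1 : ‖(quad c)^[m] (c + w ^ 2)‖ ≤ ‖z c (m + 1)‖ +
      ‖A c (m + 1)‖ * ‖w ^ 2‖ * (10023 / 10000) := by
    have := norm_add_le (z c (m + 1)) ((quad c)^[m] (c + w ^ 2) - z c (m + 1))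
    rw [add_sub_cancel] at this
    linarith
  calc ‖(quad c)^[m] (c + w ^ 2)‖ * ‖A c (m + 1)‖ ≤ (‖z c (m + 1)‖ +
      ‖A c (m + 1)‖ * ‖w ^ 2‖ * (10023 / 10000)) * ‖A c (m + 1)‖ :=
        mul_le_mul_of_nonneg_right h1 ha.le
    _ = ‖z c (m + 1)‖ * ‖A c (m + 1)‖ + ‖w ^ 2‖ * ‖A c (m + 1)‖ ^ 2 * (10023 / 10000) := by ring
    _ < 45 / 100 := by linarith

theorem dyn_lip {c w w' : ℂ} {n : ℕ} (hz : ∀ j, 1 ≤ j → j < n → z c j ≠ 0) (hn : 1 ≤ n)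
    (hC : ∑ j ∈ Ico 1 n, ‖A c j‖ / ‖z c j‖ ≤ 113 / 10000 * ‖A c n‖ ^ 2)
    (hw : ‖w‖ ≤ 45 / 100 / ‖A c n‖) (hw' : ‖w'‖ ≤ 45 / 100 / ‖A c n‖) :
    ‖(quad c)^[n] w - (quad c)^[n] w'‖ ≤ 91 / 100 * ‖w - w'‖ := by
  have ha : 0 < ‖A c n‖ := norm_pos_iff.2 (A_ne c hz le_rfl)
  have hw1 : ‖w‖ * ‖A c n‖ ≤ 45 / 100 := (le_div_iff₀ ha).1 hw
  have hw2 : ‖w'‖ * ‖A c n‖ ≤ 45 / 100 := (le_div_iff₀ ha).1 hw'
  have hu1 : ‖w ^ 2‖ * ‖A c n‖ ^ 2 ≤ 2025 / 10000 := by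
    rw [norm_pow, ← mul_pow]
    nlinarith [mul_nonneg (norm_nonneg w) ha.le]
  have hu2 : ‖w' ^ 2‖ * ‖A c n‖ ^ 2 ≤ 2025 / 10000 := by
    rw [norm_pow, ← mul_pow]
    nlinarith [mul_nonneg (norm_nonneg w') ha.le]
  have h1 := orbit_pert_small hz hC hu1
  have h2 := orbit_pert_small hz hC hu2
  have hsum : ∑ i ∈ Ico 1 n, ‖((quad c)^[i - 1] (c + w ^ 2) + (quad c)^[i - 1] (c + w' ^ 2)) / 2
      - z c i‖ / ‖z c i‖ ≤ 23 / 10000 := by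
    calc _ ≤ ∑ i ∈ Ico 1 n, (‖A c i‖ / ‖z c i‖) * (2025 / 10000 / ‖A c n‖ ^ 2 * (10023 / 10000)) := by
          refine sum_le_sum fun i hi => ?_
          rw [mem_Ico] at hi
          have hX : 0 < ‖z c i‖ := norm_pos_iff.2 (hz i hi.1 hi.2)
          have g1 := h1 i hi.1 hi.2.le
          have g2 := h2 i hi.1 hi.2.le
          have e : ((quad c)^[i - 1] (c + w ^ 2) + (quad c)^[i - 1] (c + w' ^ 2)) / 2 - z c i =
              (((quad c)^[i - 1] (c + w ^ 2) - z c i) + ((quad c)^[i - 1] (c + w' ^ 2) - z c i)) / 2 := by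
            ring
          have k1 : ‖w ^ 2‖ ≤ 2025 / 10000 / ‖A c n‖ ^ 2 := (le_div_iff₀ (by positivity)).2 hu1
          have k2 : ‖w' ^ 2‖ ≤ 2025 / 10000 / ‖A c n‖ ^ 2 := (le_div_iff₀ (by positivity)).2 hu2
          have k3 := mul_le_mul_of_nonneg_left k1 (norm_nonneg (A c i))
          have k4 := mul_le_mul_of_nonneg_left k2 (norm_nonneg (A c i))
          rw [e, div_mul_eq_mul_div, div_le_div_iff_of_pos_right hX, norm_div]
          have n3 := norm_add_le ((quad c)^[i - 1] (c + w ^ 2) - z c i)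
            ((quad c)^[i - 1] (c + w' ^ 2) - z c i)
          have n2 : ‖(2 : ℂ)‖ = 2 := by simp
          rw [n2]
          have : ‖A c i‖ * (2025 / 10000 / ‖A c n‖ ^ 2 * (10023 / 10000)) =
            ‖A c i‖ * (2025 / 10000 / ‖A c n‖ ^ 2) * (10023 / 10000) := by ring
          rw [this]
          linarith
      _ = (∑ i ∈ Ico 1 n, ‖A c i‖ / ‖z c i‖) * (2025 / 10000 / ‖A c n‖ ^ 2 * (10023 / 10000)) := by
          rw [sum_mul]
      _ ≤ 113 / 10000 * ‖A c n‖ ^ 2 * (2025 / 10000 / ‖A c n‖ ^ 2 * (10023 / 10000)) :=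
          mul_le_mul_of_nonneg_right hC (by positivity)
      _ = 113 / 10000 * (2025 / 10000) * (10023 / 10000) := by field_simp
      _ ≤ 23 / 10000 := by norm_num
  have hp := prod_ratio (s := Ico 1 n) (x := z c)
    (y := fun i => ((quad c)^[i - 1] (c + w ^ 2) + (quad c)^[i - 1] (c + w' ^ 2)) / 2)
    (fun i hi => by rw [mem_Ico] at hi; exact hz i hi.1 hi.2) hsum
  have e1 : ∏ i ∈ Ico 1 n, (2 * (((quad c)^[i - 1] (c + w ^ 2) + (quad c)^[i - 1] (c + w' ^ 2)) / 2))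
      = ∏ i ∈ Ico 1 n, ((quad c)^[i - 1] (c + w ^ 2) + (quad c)^[i - 1] (c + w' ^ 2)) :=
    prod_congr rfl fun i _ => by ring
  rw [e1] at hp
  change ‖_ - A c n‖ ≤ ‖A c n‖ * _ at hp
  have hP : ‖∏ i ∈ Ico 1 n, ((quad c)^[i - 1] (c + w ^ 2) + (quad c)^[i - 1] (c + w' ^ 2))‖ ≤
      ‖A c n‖ * (1 / (1 - 23 / 10000)) := by
    have := norm_sub_norm_le (∏ i ∈ Ico 1 n,
      ((quad c)^[i - 1] (c + w ^ 2) + (quad c)^[i - 1] (c + w' ^ 2))) (A c n)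
    have h5 := mul_le_mul_of_nonneg_left exp_small ha.le
    linarith
  obtain ⟨m, rfl⟩ := Nat.exists_eq_add_of_le' hn
  rw [Function.iterate_succ_apply, Function.iterate_succ_apply]
  have ew : ∀ w, quad c w = c + w ^ 2 := fun w => by unfold quad; ring
  rw [ew, ew, iterate_sub_eq, norm_mul]
  have e3 : c + w ^ 2 - (c + w' ^ 2) = (w - w') * (w + w') := by ring
  rw [e3, norm_mul]
  have n4 : ‖w + w'‖ * ‖A c (m + 1)‖ ≤ 9 / 10 := by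
    have := mul_le_mul_of_nonneg_right (norm_add_le w w') ha.le
    linarith
  calc ‖w - w'‖ * ‖w + w'‖ * _ ≤ ‖w - w'‖ * ‖w + w'‖ * (‖A c (m + 1)‖ * (1 / (1 - 23 / 10000))) :=
        mul_le_mul_of_nonneg_left hP (by positivity)
    _ = ‖w - w'‖ * (‖w + w'‖ * ‖A c (m + 1)‖) * (1 / (1 - 23 / 10000)) := by ring
    _ ≤ ‖w - w'‖ * (9 / 10) * (1 / (1 - 23 / 10000)) := by
        refine mul_le_mul_of_nonneg_right (mul_le_mul_of_nonneg_left n4 (norm_nonneg _)) ?_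
        norm_num
    _ ≤ 91 / 100 * ‖w - w'‖ := by
        have := norm_nonneg (w - w')
        norm_num
        linarith

/-- row (5): a parameter with a small `z_n` is renormalizable of no period larger than `n` -/
theorem not_isRenorm_of_small {c : ℂ} {n p : ℕ} (hz : ∀ j, 1 ≤ j → j < n → z c j ≠ 0)
    (hn : 1 ≤ n) (hC : ∑ j ∈ Ico 1 n, ‖A c j‖ / ‖z c j‖ ≤ 113 / 10000 * ‖A c n‖ ^ 2)
    (hzn : ‖z c n‖ * ‖A c n‖ ≤ 13 / 100) (hnp : n < p) : ¬ IsRenorm p c := by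
  have ha : 0 < ‖A c n‖ := norm_pos_iff.2 (A_ne c hz le_rfl)
  exact not_isRenorm_of_attracting (R := 45 / 100 / ‖A c n‖) (q := 91 / 100) hn hnp (by positivity)
    (by norm_num) (by norm_num) (fun w hw => dyn_map hz hn hC hzn hw)
    (fun w w' hw hw' => dyn_lip hz hn hC hw hw')

theorem notMem_infRenorm_of_small {c : ℂ} {n : ℕ} (hz : ∀ j, 1 ≤ j → j < n → z c j ≠ 0)
    (hn : 1 ≤ n) (hC : ∑ j ∈ Ico 1 n, ‖A c j‖ / ‖z c j‖ ≤ 113 / 10000 * ‖A c n‖ ^ 2)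
    (hzn : ‖z c n‖ * ‖A c n‖ ≤ 13 / 100) : c ∉ infRenorm := by
  have ha : 0 < ‖A c n‖ := norm_pos_iff.2 (A_ne c hz le_rfl)
  exact periods_finite_of_attracting (R := 45 / 100 / ‖A c n‖) (q := 91 / 100) hn (by positivity)
    (by norm_num) (by norm_num) (fun w hw => dyn_map hz hn hC hzn hw)
    (fun w w' hw hw' => dyn_lip hz hn hC hw hw')

end Pool.Agent.H48.MB
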