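import Pool.Agent.H48.MB.RowS2
import Pool.Agent.H98.MB.RowP
import Pool.Agent.H10.MB.Box

set_option linter.style.longLine false

/-! MB2, row V: the class contains real infinitely renormalizable parameters. -/

namespace Pool.Agent.H48.MB

open Finset Filter Topology
open Pool.Agent.H51.IR Pool.Agent.H98.MB Pool.Agent.H47.MB

/-- row V, from rows Q and R -/
theorem rowV (hQ : StatQ) (hR : StatR) :
    ∃ c : ℝ, (c : ℂ) ∈ infRenorm ∧ ∀ N, ∃ n, N ≤ n ∧ CloseReturns 4 (c : ℂ) n := by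
  have hstep : ∀ p : {p : ℝ × ℕ // Centre (p.1 : ℂ) p.2}, ∃ p' : {p : ℝ × ℕ // Centre (p.1 : ℂ) p.2},
      Step (p.1.1 : ℂ) p.1.2 (p'.1.1 : ℂ) p'.1.2 := by
    rintro ⟨⟨c, n⟩, hc⟩
    obtain ⟨c', n', h1, h2⟩ := rowS1 rowP hQ hR hc
    exact ⟨⟨⟨c', n'⟩, h1⟩, h2⟩
  choose next hnext using hstep
  set s : ℕ → {p : ℝ × ℕ // Centre (p.1 : ℂ) p.2} := fun k => next^[k] ⟨⟨0, 1⟩, centre_zero⟩ with hs
  have hsucc : ∀ k, s (k + 1) = next (s k) := fun k => Function.iterate_succ_apply' _ _ _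
  set c : ℕ → ℂ := fun k => (((s k).1.1 : ℝ) : ℂ) with hcdef
  set n : ℕ → ℕ := fun k => (s k).1.2 with hndef
  have hC : ∀ k, Centre (c k) (n k) := fun k => (s k).2
  have hS : ∀ k, Step (c k) (n k) (c (k + 1)) (n (k + 1)) := by
    intro k
    have h1 : c (k + 1) = (((next (s k)).1.1 : ℝ) : ℂ) := by rw [hcdef]; simp only [hsucc]
    have h2 : n (k + 1) = (next (s k)).1.2 := by rw [hndef]; simp only [hsucc]
    rw [h1, h2]
    exact hnext (s k)
  have hc0 : c 0 = 0 := by
    show (((0 : ℝ)) : ℂ) = 0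
    simp
  have hn0 : n 0 = 1 := rfl
  obtain ⟨c', hlim, hd, hret⟩ := rowS2 rowP hC hS hc0 hn0
  have him : c'.im = 0 := by
    have h1 : Tendsto (fun k => (c k).im) atTop (𝓝 c'.im) :=
      (Complex.continuous_im.tendsto c').comp hlim
    have h2 : (fun k => (c k).im) = fun _ => (0 : ℝ) := by
      funext k
      exact Complex.ofReal_im _
    rw [h2] at h1
    exact tendsto_nhds_unique h1 tendsto_const_nhds
  have hre : ((c'.re : ℝ) : ℂ) = c' := Complex.ext (by simp) (by simp [him])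
  have hngrow : ∀ k, k + 1 ≤ n k := by
    intro k
    induction k with
    | zero => rw [hn0]
    | succ k ih =>
      obtain ⟨q, hq, h⟩ := (hS k).mul
      rw [h]
      nlinarith
  have hnear : ∀ k x, ‖A (c k) (n k)‖ * ‖x‖ ≤ 5 → Near (c k) (n k) c' x := fun k x hx =>
    (near (hC k) ((hd k).trans (by norm_num)) hx).1
  refine ⟨c'.re, ?_, ?_⟩
  · rw [hre]
    show (periods c').Infinite
    rw [Set.infinite_iff_exists_gt]
    intro N
    refine ⟨n (N + 1), ?_, ?_⟩
    · exact Pool.Agent.H10.MB.isRenorm_of_near (hC _) (by have := hngrow (N + 1); omega) (hd _) (hret _)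
        fun x hx => hnear _ x (hx.trans (by norm_num))
    · have := hngrow (N + 1)
      omega
  · intro N
    rw [hre]
    refine ⟨n (N + 1), by have := hngrow (N + 1); omega, ?_⟩
    refine closeReturns_of_centre (hC _) (by have := hngrow (N + 1); omega) ?_ ?_ ?_
    · exact hnear _ 0 (by rw [norm_zero, mul_zero]; norm_num)
    · exact (near (x := 0) (hC (N + 1)) ((hd _).trans (by norm_num))
        (by rw [norm_zero, mul_zero]; norm_num)).2.1
    · have := hret (N + 1) 1
      rwa [one_mul] at this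

end Pool.Agent.H48.MB
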